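import Pool.Agent.W207.PR.A1
import Pool.Agent.W613.PR.Test

/-! # Many even test functions (S_TESTE) -/

set_option autoImplicit false

open Filter Topology Set MeasureTheory
open scoped BigOperators FourierTransform Convolution ContDiff

namespace Pool.Agent.W340.PR

open W207.PR Pool.Agent.W613.PR

theorem teste : S_TESTE := by
  intro U hU
  -- the bump function
  set η : ℝ := min (1 / 8) (1 / (6 * U)) with hη
  have hη0 : 0 < η := lt_min (by norm_num) (by positivity)
  have hη1 : η ≤ 1 / 8 := min_le_left _ _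
  have hη2 : η * U ≤ 1 / 6 := by
    have : η ≤ 1 / (6 * U) := min_le_right _ _
    calc η * U ≤ 1 / (6 * U) * U := mul_le_mul_of_nonneg_right this hU.le
      _ = 1 / 6 := by field_simp
  let bp : ContDiffBump (0 : ℝ) := ⟨η / 2, η, by positivity, by linarith⟩
  set b : ℝ → ℝ := bp.normed volume with hb
  have hbs : ContDiff ℝ ∞ b := bp.contDiff_normed
  have hbc : Continuous b := bp.continuous_normed
  have hbk : HasCompactSupport b := bp.hasCompactSupport_normed
  have hbe : ∀ x, b (-x) = b x := bp.normed_neg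
  have hb0 : ∀ x, 0 ≤ b x := bp.nonneg_normed
  have hb1 : ∫ x, b x = 1 := bp.integral_normed
  have hbi : Integrable b := hbc.integrable_of_hasCompactSupport hbk
  have hbz : ∀ x, η ≤ |x| → b x = 0 := by
    intro x hx
    by_contra hne
    have : x ∈ Function.support b := hne
    rw [hb, bp.support_normed_eq, Metric.mem_ball, dist_zero_right, Real.norm_eq_abs] at this
    exact absurd this (not_lt.2 hx)
  -- the transform of b
  set g : ℝ → ℝ := fun u => ∫ v : ℝ, b v * Real.cos (2 * Real.pi * v * u) with hg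
  have hgi : ∀ u, Integrable (fun v : ℝ => b v * Real.cos (2 * Real.pi * v * u)) := fun u =>
    Continuous.integrable_of_hasCompactSupport (by fun_prop) hbk.mul_right
  have hg1 : ∀ u, |g u| ≤ 1 := by
    intro u
    calc |g u| ≤ ∫ v : ℝ, |b v * Real.cos (2 * Real.pi * v * u)| := abs_integral_le_integral_abs
      _ ≤ ∫ v : ℝ, b v := by
        refine integral_mono (hgi u).abs hbi fun v => ?_
        dsimp only
        rw [abs_mul, abs_of_nonneg (hb0 v)]
        exact mul_le_of_le_one_right (hb0 v) (Real.abs_cos_le_one _)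
      _ = 1 := hb1
  have hg2 : ∀ u, |u| ≤ U → 1 / 2 ≤ g u := by
    intro u hu
    calc (1 : ℝ) / 2 = ∫ v : ℝ, b v * (1 / 2) := by rw [integral_mul_const, hb1, one_mul]
      _ ≤ ∫ v : ℝ, b v * Real.cos (2 * Real.pi * v * u) := by
        refine integral_mono (hbi.mul_const _) (hgi u) fun v => ?_
        dsimp only
        by_cases hv : η ≤ |v|
        · rw [hbz v hv]
          simp
        · push Not at hv
          refine mul_le_mul_of_nonneg_left ?_ (hb0 v)
          rw [← Real.cos_abs (2 * Real.pi * v * u), ← Real.cos_pi_div_three]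
          have h1 : |2 * Real.pi * v * u| ≤ Real.pi / 3 := by
            rw [abs_mul, abs_mul, abs_of_pos (by positivity : (0 : ℝ) < 2 * Real.pi)]
            have h2 : |v| * |u| ≤ 1 / 6 :=
              (mul_le_mul hv.le hu (abs_nonneg _) hη0.le).trans hη2
            calc 2 * Real.pi * |v| * |u| = 2 * Real.pi * (|v| * |u|) := by ring
              _ ≤ 2 * Real.pi * (1 / 6) := mul_le_mul_of_nonneg_left h2 (by positivity)
              _ = Real.pi / 3 := by ring
          exact Real.cos_le_cos_of_nonneg_of_le_pi (abs_nonneg _)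
            (by linarith [Real.pi_pos]) h1
  -- the convolution square
  set B : ℝ → ℝ := b ⋆[ContinuousLinearMap.mul ℝ ℝ] b with hB
  have hBs : ContDiff ℝ ∞ B :=
    hbk.contDiff_convolution_right _ hbc.locallyIntegrable hbs
  have hBk : HasCompactSupport B := hbk.convolution _ hbk
  have hBc : Continuous B := hBs.continuous
  have hBv : ∀ x, B x = ∫ t, b t * b (x - t) := fun x => rfl
  have hBe : ∀ x, B (-x) = B x := by
    intro x
    rw [hBv, hBv, ← integral_neg_eq_self (fun t => b t * b (-x - t)) volume]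
    refine integral_congr_ae (Eventually.of_forall fun t => ?_)
    dsimp only
    rw [hbe, ← hbe (x - t)]
    congr 2
    ring
  have hBz : ∀ x, 1 / 4 ≤ |x| → B x = 0 := by
    intro x hx
    rw [hBv]
    rw [show (fun t => b t * b (x - t)) = fun _ => (0 : ℝ) from ?_, integral_zero]
    funext t
    by_cases ht : η ≤ |t|
    · rw [hbz t ht, zero_mul]
    · push Not at ht
      have h1 : η ≤ |x - t| := by
        have := abs_sub_abs_le_abs_sub x t
        linarith
      rw [hbz _ h1, mul_zero]
  -- transforms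
  have hFb : ∀ u, 𝓕 (fun x : ℝ => (b x : ℂ)) u = (g u : ℂ) := by
    intro u
    rw [fourier_ofReal b hbc hbk u, sin_even b hbe u]
    simp [hg]
  have hFB : ∀ u, 𝓕 (fun x : ℝ => (B x : ℂ)) u = ((g u ^ 2 : ℝ) : ℂ) := by
    intro u
    have e : (fun x : ℝ => (B x : ℂ)) =
        (fun x : ℝ => (b x : ℂ)) ⋆[ContinuousLinearMap.mul ℂ ℂ] (fun x : ℝ => (b x : ℂ)) := by
      funext x
      rw [hBv]
      change ((∫ (t : ℝ), b t * b (x - t) : ℝ) : ℂ) = ∫ t : ℝ, (b t : ℂ) * (b (x - t) : ℂ)
      rw [← integral_complex_ofReal]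
      refine integral_congr_ae (Eventually.of_forall fun t => ?_)
      simp
    rw [e]
    refine (Real.fourier_bilin_convolution_eq (ContinuousLinearMap.mul ℂ ℂ) hbi.ofReal hbi.ofReal
      u).trans ?_
    rw [ContinuousLinearMap.mul_apply']
    refine (congrArg₂ (· * ·) (hFb u) (hFb u)).trans ?_
    push_cast
    ring
  have hint : ∀ n : ℕ, Integrable (iteratedDeriv n (fun x : ℝ => (B x : ℂ))) := by
    intro n
    rw [iteratedDeriv_ofReal B hBs n]
    exact ((contDiff_iteratedDeriv B hBs n).continuous.integrable_of_hasCompactSupport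
      (hasCompactSupport_iteratedDeriv B hBk n)).ofReal
  have hBsC : ContDiff ℝ ∞ (fun x : ℝ => (B x : ℂ)) := Complex.ofRealCLM.contDiff.comp hBs
  have hBkC : HasCompactSupport (fun x : ℝ => (B x : ℂ)) :=
    hBk.comp_left (g := fun x : ℝ => (x : ℂ)) (by simp)
  set S : SchwartzMap ℝ ℂ := 𝓕 (hBkC.toSchwartzMap hBsC) with hS
  have hSv : ∀ u, S u = ((g u ^ 2 : ℝ) : ℂ) := by
    intro u
    rw [hS, SchwartzMap.fourier_coe, ← hFB u]
    rfl
  refine ⟨fun u => g u ^ 2, ?_, ?_, ?_, ?_, ?_⟩
  · -- continuity
    have h1 : Continuous (fun u => (S u).re) := Complex.continuous_re.comp S.continuous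
    simp_rw [hSv, Complex.ofReal_re] at h1
    exact h1
  · intro u
    refine ⟨by positivity, ?_⟩
    have h1 := hg1 u
    rw [abs_le] at h1
    nlinarith [h1.1, h1.2]
  · intro u hu
    have h1 := hg2 u hu
    nlinarith
  · -- decay
    intro n
    refine ⟨?_, fun u => ?_⟩
    · exact 2 ^ n * (Finset.Iic ((n, 0) : ℕ × ℕ)).sup
        (fun m => SchwartzMap.seminorm ℝ m.1 m.2) S
    · have h1 := SchwartzMap.one_add_le_sup_seminorm_apply (𝕜 := ℝ) (m := (n, 0)) (k := n)
        (n := 0) le_rfl le_rfl S u
      have h2 : ‖S u‖ = g u ^ 2 := by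
        rw [hSv, Complex.norm_real, Real.norm_of_nonneg (sq_nonneg _)]
      rw [norm_iteratedFDeriv_zero, h2, Real.norm_eq_abs, mul_comm] at h1
      exact h1
  · intro k
    set D : ℝ → ℝ := iteratedDeriv (2 * k) B with hD
    have hDs : ContDiff ℝ ∞ D := contDiff_iteratedDeriv B hBs _
    have hDk : HasCompactSupport D := hasCompactSupport_iteratedDeriv B hBk _
    have hDp : ∀ x, D (-x) = D x := by
      intro x
      rw [hD, iteratedDeriv_parity B hBe]
      rw [show (-1 : ℝ) ^ (2 * k) = 1 by rw [pow_mul]; simp]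
      ring
    -- the cosine transform of D
    have hcos : ∀ u : ℝ, ∫ v : ℝ, D v * Real.cos (2 * Real.pi * v * u) =
        (-1) ^ k * (2 * Real.pi * u) ^ (2 * k) * g u ^ 2 := by
      intro u
      have h1 := congrFun (Real.fourier_iteratedDeriv (N := ⊤) (n := 2 * k) hBsC
        (fun n _ => hint n) le_top) u
      rw [iteratedDeriv_ofReal B hBs, fourier_ofReal _ hDs.continuous hDk u, hFB] at h1
      have h2 := congrArg Complex.re h1
      have h3 : (2 * (Real.pi : ℂ) * Complex.I * (u : ℂ)) ^ (2 * k) =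
          (((-1) ^ k * (2 * Real.pi * u) ^ (2 * k) : ℝ) : ℂ) := by
        rw [show (2 * (Real.pi : ℂ) * Complex.I * (u : ℂ)) =
          ((2 * Real.pi * u : ℝ) : ℂ) * Complex.I by push_cast; ring, mul_pow,
          pow_mul Complex.I, Complex.I_sq]
        push_cast
        ring
      rw [h3, smul_eq_mul] at h2
      simp only [Complex.sub_re, Complex.mul_re, Complex.ofReal_re, Complex.ofReal_im,
        Complex.I_re, Complex.I_im, mul_zero, mul_one, sub_zero] at h2
      linarith
    refine ⟨fun x => (-1) ^ k / (2 * Real.pi) ^ (2 * k) * D x, ⟨?_, ?_, ?_⟩, ?_⟩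
    · intro n
      exact contDiff_const.mul (hDs.of_le (by exact_mod_cast le_top))
    · intro x
      congr 1
      exact hDp x
    · refine ⟨1 / 2, by norm_num, by norm_num, fun x hx => ?_⟩
      have h1 : D x = 0 := iteratedDeriv_support B (1 / 4) hBz _ x (by linarith)
      rw [h1, mul_zero]
    · intro u
      unfold ct
      have h1 : ∀ v : ℝ, (-1) ^ k / (2 * Real.pi) ^ (2 * k) * D v *
          Real.cos (2 * Real.pi * v * u) =
          (-1) ^ k / (2 * Real.pi) ^ (2 * k) * (D v * Real.cos (2 * Real.pi * v * u)) := by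
        intro v
        ring
      simp_rw [h1]
      rw [integral_const_mul, hcos]
      have h2 : ((-1 : ℝ) ^ k) * (-1) ^ k = 1 := by rw [← mul_pow]; simp
      have h3 : (2 * Real.pi) ^ (2 * k) ≠ 0 := by positivity
      rw [mul_pow (2 * Real.pi) u]
      field_simp
      linear_combination (u ^ (2 * k) * g u ^ 2) * h2

end Pool.Agent.W340.PR
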